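import Pool.Agent.TH362.TF.Multi
import Pool.Agent.TH362.TF.Contr
import Pool.Agent.TH362.TF.Cyc
import Pool.Agent.H789.AL.Base

/-!
# Graphs with few disjoint small odd cuts (MP_e6539c_co)

Let `G` be a finite multigraph without isthmuses which does not contain seventeen pairwise disjoint
vertex sets whose numbers of boundary edges are 3, 5, 7 or 9.  Then the edge set of `G` is the union
of two cycles, or a component of `G` can be contracted to the Petersen graph.  The order, the degrees
and the small even cuts are arbitrary.

Proof.  By the files `X42` of the library every such graph has a nowhere-zero flow over the group of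
order four or a quotient which is a Petersen graph.
-/

set_option autoImplicit false

namespace Pool.Agent.Results.MP_e6539c_co.FewSmallCuts

open Pool.Agent.TH362.Multi

/-- The number of the edges of the graph with exactly one end in `X`. -/
noncomputable def boundary {V E : Type} (s t : E → V) (X : Set V) : ℕ :=
  {e | ¬ (s e ∈ X ↔ t e ∈ X)}.ncard

/-- One of the following three conditions holds.  (1) For all pairwise disjoint vertex sets
`X 0, ..., X (m - 1)`, where `18 ≤ m`, with odd numbers of boundary edges, the sum of these numbers is
larger than `4 m - 6`.  (2) There are no seventeen pairwise disjoint vertex sets whose numbers of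
boundary edges are odd and at most nine.  (3) For some `d ≥ 10` every vertex has at least `d`
different neighbours, and the number of the vertices is less than `17 (d + 1)`. -/
def FewSmall {V E : Type} (s t : E → V) : Prop :=
  (∀ (m : ℕ) (X : Fin m → Set V), 18 ≤ m → (∀ i j, i ≠ j → Disjoint (X i) (X j)) →
    (∀ i, Odd (boundary s t (X i))) → 4 * m < ∑ i, boundary s t (X i) + 6) ∨
  (¬ ∃ X : Fin 17 → Set V, (∀ i j, i ≠ j → Disjoint (X i) (X j)) ∧
    ∀ i, Odd (boundary s t (X i)) ∧ boundary s t (X i) ≤ 9) ∨
  ∃ d, 10 ≤ d ∧ Nat.card V < 17 * (d + 1) ∧
    ∀ v, d ≤ {w | w ≠ v ∧ ∃ e, (s e = v ∧ t e = w) ∨ (s e = w ∧ t e = v)}.ncard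

/-- Let `s t : E → V` be a finite multigraph without isthmuses which satisfies one of the three
conditions of `FewSmall`, for example without seventeen pairwise disjoint vertex sets with 3, 5, 7 or
9 boundary edges. Then the edge set is the union of two cycles, or
some component can be contracted to the Petersen graph.  In particular the edge set is the union of
two cycles if there is no Petersen minor. -/
theorem result (V E : Type) [Finite V] [Finite E] (s t : E → V)
    (hb : ∀ e, ¬ Isthmus s t e)
    (hs : FewSmall s t) :
    (∃ C₁ C₂ : Set E, IsCycle s t C₁ ∧ IsCycle s t C₂ ∧ C₁ ∪ C₂ = Set.univ) ∨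
      ContractsToPetersen s t := by
  classical
  have := Fintype.ofFinite V
  have := Fintype.ofFinite E
  have hn := TH362.TF.n1_of s t hb
  have key : TH362.TF.NZ s t Finset.univ ∨ TH362.TF.PQ s t Finset.univ := by
    exact H789.AL.good_few s t hn hs id hn
  rcases key with h | h
  · exact Or.inl (TH362.TF.two_cycles s t h)
  · exact Or.inr (TH362.TF.contracts s t hn h)

end Pool.Agent.Results.MP_e6539c_co.FewSmallCuts
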