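import Pool.Agent.TH362.TF.Multi
import Pool.Agent.TH362.TF.Contr
import Pool.Agent.TH362.TF.Cyc
import Pool.Agent.H789.AL.Base

/-!
# Graphs with few independent small odd cuts (MP_e6539c_co)

Let `G` be a finite multigraph without isthmuses.  Let `U` be a set of vertices, and `a ≥ 3`, `c ≥ 1`
with `4 a + |U| + ⌊6 / c⌋ ≤ 21`, such that `G` has no `a + 1` pairwise disjoint and pairwise
non-adjacent vertex sets disjoint from `U`, each with an odd number, at most `2 c + 1`, of boundary
edges.  Then the edge set of `G` is the union of two cycles, or a component of `G` can be contracted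
to the Petersen graph.

Proof.  By the files `X186` of the library every such graph has a nowhere-zero flow over the group of
order four or a quotient which is a Petersen graph.
-/

set_option autoImplicit false

namespace Pool.Agent.Results.MP_e6539c_co.IndependentSmallCuts

open Pool.Agent.TH362.Multi

/-- The number of the edges of the graph with exactly one end in `X`. -/
noncomputable def boundary {V E : Type} (s t : E → V) (X : Set V) : ℕ :=
  {e | ¬ (s e ∈ X ↔ t e ∈ X)}.ncard

/-- Some edge has one end in `X` and the other in `Y`. -/
def Adjacent {V E : Type} (s t : E → V) (X Y : Set V) : Prop :=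
  ∃ e, (s e ∈ X ∧ t e ∈ Y) ∨ (s e ∈ Y ∧ t e ∈ X)

/-- There are a set `U` of vertices and numbers `a ≥ 3` and `c ≥ 1` with
`4 a + |U| + ⌊6 / c⌋ ≤ 21` such that there are no `a + 1` pairwise disjoint and pairwise non-adjacent
vertex sets, all of them disjoint from `U`, each with an odd number, at most `2 c + 1`, of boundary
edges. -/
def Independent {V E : Type} (s t : E → V) : Prop :=
  ∃ (U : Set V) (a c : ℕ), 3 ≤ a ∧ 1 ≤ c ∧ 4 * a + U.ncard + 6 / c ≤ 21 ∧
    ¬ ∃ X : Fin (a + 1) → Set V,
      (∀ i j, i ≠ j → Disjoint (X i) (X j) ∧ ¬ Adjacent s t (X i) (X j)) ∧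
      (∀ i, Disjoint (X i) U) ∧
      ∀ i, Odd (boundary s t (X i)) ∧ boundary s t (X i) ≤ 2 * c + 1

/-- Let `s t : E → V` be a finite multigraph without isthmuses which satisfies the condition
`Independent`. Then the edge set is the union of two cycles, or
some component can be contracted to the Petersen graph.  In particular the edge set is the union of
two cycles if there is no Petersen minor. -/
theorem result (V E : Type) [Finite V] [Finite E] (s t : E → V)
    (hb : ∀ e, ¬ Isthmus s t e)
    (hs : Independent s t) :
    (∃ C₁ C₂ : Set E, IsCycle s t C₁ ∧ IsCycle s t C₂ ∧ C₁ ∪ C₂ = Set.univ) ∨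
      ContractsToPetersen s t := by
  classical
  have := Fintype.ofFinite V
  have := Fintype.ofFinite E
  have hn := TH362.TF.n1_of s t hb
  have key : TH362.TF.NZ s t Finset.univ ∨ TH362.TF.PQ s t Finset.univ := by
    exact H789.AL.good_indep s t hs id hn
  rcases key with h | h
  · exact Or.inl (TH362.TF.two_cycles s t h)
  · exact Or.inr (TH362.TF.contracts s t hn h)

end Pool.Agent.Results.MP_e6539c_co.IndependentSmallCuts
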