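import Pool.Agent.TH362.TF.Multi
import Pool.Agent.TH362.TF.Contr
import Pool.Agent.TH362.TF.Cyc
import Pool.Agent.R769.MN.Mat
import Pool.Agent.R890.FF.Cov

/-!
# Graphs with small matching number or small vertex cover number (MP_e6539c_co)

Let `G` be a finite multigraph without isthmuses in which every matching has at most eight edges, or
in which nine vertices meet all edges (apart from loops).  Then the edge set of `G` is the union of
two cycles, or a component of `G` can be contracted to the Petersen graph.

Proof.  Take a graph obtained from `G` by identification of vertices, without nowhere-zero flow over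
the group of order four and without Petersen quotient, with as few edges (apart from loops) as
possible.  It has no short circuits, and at least 18 vertices of odd degree (`TH362/TF`).  The files
`R769/MN` (matchings) and `R890/FF/Cov` (vertex covers) of the library show that it has a matching
with nine edges and no vertex cover with nine vertices.
-/

set_option autoImplicit false

namespace Pool.Agent.Results.MP_e6539c_co.MatchingOrCover

open Pool.Agent.TH362.Multi

/-- `M` is a matching: its edges are not loops and no two of them have a common end. -/
def IsMatching {V E : Type} (s t : E → V) (M : Finset E) : Prop :=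
  (∀ e ∈ M, s e ≠ t e) ∧ ∀ e ∈ M, ∀ e' ∈ M, e ≠ e' →
    s e ≠ s e' ∧ s e ≠ t e' ∧ t e ≠ s e' ∧ t e ≠ t e'

/-- Let `s t : E → V` be a finite multigraph without isthmuses in which every matching has at most
eight edges, or in which some set of at most nine vertices meets all edges which are not loops. Then the edge set is the union of two cycles, or
some component can be contracted to the Petersen graph.  In particular the edge set is the union of
two cycles if there is no Petersen minor. -/
theorem result (V E : Type) [Finite V] [Finite E] (s t : E → V)
    (hb : ∀ e, ¬ Isthmus s t e)
    (h : (∀ M : Finset E, IsMatching s t M → M.card ≤ 8) ∨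
      ∃ C : Finset V, C.card ≤ 9 ∧ ∀ e, s e ≠ t e → s e ∈ C ∨ t e ∈ C) :
    (∃ C₁ C₂ : Set E, IsCycle s t C₁ ∧ IsCycle s t C₂ ∧ C₁ ∪ C₂ = Set.univ) ∨
      ContractsToPetersen s t := by
  classical
  have := Fintype.ofFinite V
  have := Fintype.ofFinite E
  have hn := TH362.TF.n1_of s t hb
  have key : TH362.TF.NZ s t Finset.univ ∨ TH362.TF.PQ s t Finset.univ := by
    rcases h with h8 | ⟨C, h9, hC⟩
    · exact R769.MN.match8 s t _ hn fun M _ hM => h8 M hM
    · exact R890.FF.cover9 s t Finset.univ C hn (fun e _ hne => hC e hne) h9
  rcases key with h | h
  · exact Or.inl (TH362.TF.two_cycles s t h)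
  · exact Or.inr (TH362.TF.contracts s t hn h)

end Pool.Agent.Results.MP_e6539c_co.MatchingOrCover
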